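import Pool.Agent.H72.OF.Alg

/-!
# A letter `y` with `y^p` in the code, `p` prime, and at most `p` letters `y` in each word

Then `y` is missing in one factor of every factorization of `(1 - c) / (1 - s)`.
-/

set_option autoImplicit false

namespace Pool.Agent.H49.OP

open Pool.Agent.H35.FC (IsCode gf)

section
variable {α : Type} [DecidableEq α]

/-- `y ↦ X`, all other letters `↦ 0`. -/
noncomputable def phi (y : α) : MvPolynomial α ℤ →+* Polynomial ℤ :=
  MvPolynomial.eval₂Hom Polynomial.C (fun x => if x = y then Polynomial.X else 0)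

theorem phi_X_self (y : α) : phi y (MvPolynomial.X y) = Polynomial.X := by
  simp [phi]

theorem phi_X_ne {x y : α} (h : x ≠ y) : phi y (MvPolynomial.X x) = 0 := by
  simp [phi, h]

theorem natDegree_phi_le (y : α) (P : MvPolynomial α ℤ) :
    (phi y P).natDegree ≤ MvPolynomial.degreeOf y P := by
  conv_lhs => rw [P.as_sum, map_sum]
  refine Polynomial.natDegree_sum_le_of_forall_le _ _ (fun m hm => ?_)
  have h1 : m y ≤ MvPolynomial.degreeOf y P := MvPolynomial.monomial_le_degreeOf y hm
  refine le_trans ?_ h1
  rw [phi, MvPolynomial.coe_eval₂Hom, MvPolynomial.eval₂_monomial]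
  refine (Polynomial.natDegree_C_mul_le _ _).trans ?_
  rw [Finsupp.prod]
  refine (Polynomial.natDegree_prod_le _ _).trans ?_
  have h2 : ∀ x ∈ m.support, ((if x = y then (Polynomial.X : Polynomial ℤ) else 0) ^ m x).natDegree
      ≤ if x = y then m y else 0 := by
    intro x hx
    by_cases h : x = y
    · subst h
      simp
    · have h3 : m x ≠ 0 := Finsupp.mem_support_iff.1 hx
      simp [h, h3]
  refine (Finset.sum_le_sum h2).trans ?_
  rw [Finset.sum_ite_eq']
  split_ifs
  · exact le_rfl
  · exact Nat.zero_le _

theorem phi_word_all (y : α) (k : ℕ) :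
    phi y ((List.replicate k y).map MvPolynomial.X).prod = Polynomial.X ^ k := by
  rw [List.map_replicate, List.prod_replicate, map_pow, phi_X_self]

theorem phi_word_zero {y : α} {w : List α} (h : ∃ x ∈ w, x ≠ y) :
    phi y (w.map MvPolynomial.X).prod = 0 := by
  induction w with
  | nil => simp at h
  | cons a w ih =>
    rw [List.map_cons, List.prod_cons, map_mul]
    by_cases ha : a = y
    · obtain ⟨x, hx, hxy⟩ := h
      rcases List.mem_cons.1 hx with h1 | h1
      · exact absurd (h1.trans ha) hxy
      · rw [ih ⟨x, h1, hxy⟩, mul_zero]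
    · rw [phi_X_ne ha, zero_mul]

theorem phi_gf {C : Finset (List α)} (hC : IsCode (C : Set (List α))) {y : α} {p : ℕ}
    (hy : List.replicate p y ∈ C) : phi y (gf C) = Polynomial.X ^ p := by
  unfold gf
  rw [map_sum, Finset.sum_eq_single (List.replicate p y)]
  · exact phi_word_all y p
  · intro w hw hne
    by_cases h : ∃ x ∈ w, x ≠ y
    · exact phi_word_zero h
    · exfalso
      push Not at h
      have h1 : w = List.replicate w.length y := List.eq_replicate_iff.2 ⟨rfl, h⟩
      have h2 := hC.2 [w, List.replicate p y] [List.replicate p y, w]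
        (by
          intro c hc
          simp only [List.mem_cons, List.not_mem_nil, or_false] at hc
          rcases hc with rfl | rfl
          · exact_mod_cast hw
          · exact_mod_cast hy)
        (by
          intro c hc
          simp only [List.mem_cons, List.not_mem_nil, or_false] at hc
          rcases hc with rfl | rfl
          · exact_mod_cast hy
          · exact_mod_cast hw)
        (by
          rw [h1]
          simp only [List.flatten_cons, List.flatten_nil, List.append_nil]
          rw [← List.replicate_add, ← List.replicate_add, add_comm])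
      exact hne (List.cons.inj h2).1
  · intro h
    exact absurd hy h

variable [Fintype α]

theorem phi_os (y : α) : phi y (H72.OF.os α) = 1 - Polynomial.X := by
  unfold H72.OF.os
  rw [map_sub, map_one, map_sum, Finset.sum_eq_single y]
  · rw [phi_X_self]
  · intro x _ hx
    exact phi_X_ne hx
  · intro h
    exact absurd (Finset.mem_univ y) h

/-- The letter `y` is missing in one factor. -/
theorem prime_missing {C : Finset (List α)} (hC : IsCode (C : Set (List α))) {y : α} {p : ℕ}
    (hp : p.Prime) (hy : List.replicate p y ∈ C) (hle : ∀ w ∈ C, w.count y ≤ p)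
    (F G : MvPolynomial α ℤ)
    (h : 1 - gf C = (1 - ∑ x : α, (MvPolynomial.X x : MvPolynomial α ℤ)) * (F * G)) :
    MvPolynomial.degreeOf y F = 0 ∨ MvPolynomial.degreeOf y G = 0 := by
  have h' : 1 - gf C = H72.OF.os α * (F * G) := h
  have hdeg : MvPolynomial.degreeOf y (1 - gf C) = p :=
    H72.OF.degreeOf_one_sub_gf hle ⟨_, hy, by simp⟩ hp.one_lt.le
  have hne : (1 - gf C) ≠ 0 := by
    intro h0
    rw [h0, MvPolynomial.degreeOf_zero] at hdeg
    exact hp.ne_zero hdeg.symm
  have hFG : F * G ≠ 0 := by
    intro h0
    rw [h0, mul_zero] at h'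
    exact hne h'
  have hF : F ≠ 0 := left_ne_zero_of_mul hFG
  have hG : G ≠ 0 := right_ne_zero_of_mul hFG
  have hos : H72.OF.os α ≠ 0 := H72.OF.os_ne_zero y
  have hsum : 1 + (MvPolynomial.degreeOf y F + MvPolynomial.degreeOf y G) = p := by
    rw [h', MvPolynomial.degreeOf_mul_eq hos hFG, MvPolynomial.degreeOf_mul_eq hF hG,
      H72.OF.degreeOf_os] at hdeg
    exact hdeg
  have e1 := congrArg (phi y) h'
  rw [map_sub, map_one, map_mul, map_mul, phi_gf hC hy, phi_os] at e1
  have hone : (1 - Polynomial.X : Polynomial ℤ) ≠ 0 := by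
    intro h0
    have := congrArg (Polynomial.eval 0) h0
    simp at this
  have e2 : phi y F * phi y G = Polynomial.cyclotomic p ℤ := by
    have := Fact.mk hp
    rw [Polynomial.cyclotomic_prime]
    apply mul_left_cancel₀ hone
    rw [← e1]
    have hgs := mul_geom_sum (Polynomial.X : Polynomial ℤ) p
    linear_combination hgs
  have hirr : Irreducible (Polynomial.cyclotomic p ℤ) := Polynomial.cyclotomic.irreducible hp.pos
  have hnd : (phi y F).natDegree + (phi y G).natDegree = p - 1 := by
    rw [← Polynomial.natDegree_mul, e2, Polynomial.natDegree_cyclotomic, Nat.totient_prime hp]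
    · intro h0
      rw [h0, zero_mul] at e2
      exact hirr.ne_zero e2.symm
    · intro h0
      rw [h0, mul_zero] at e2
      exact hirr.ne_zero e2.symm
  have hF1 := natDegree_phi_le y F
  have hG1 := natDegree_phi_le y G
  rcases hirr.isUnit_or_isUnit e2.symm with hu | hu
  · left
    have := Polynomial.natDegree_eq_zero_of_isUnit hu
    omega
  · right
    have := Polynomial.natDegree_eq_zero_of_isUnit hu
    omega

end

end Pool.Agent.H49.OP
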